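import Mathlib

/-!
# MP_a1720d_lc: the infinite defect of a finite word is computable

It is enough to decide whether `w` is a prefix of a right-infinite word (with letters in `w`) whose
finite factors have defect at most `k`.  By the lemma of König the negation is semi-decidable.  If
there is such a word, then some finite prefix `V` of it is longer than `w` and has a palindromic suffix
`q` with exactly two occurrences in `V` such that the factor from the first one to the end is a
palindrome (`Cert`, `exists_cert`); conversely, for such a finite word `V`, the continuation whose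
period is the distance of the two occurrences does not increase the defect (`new_of_cert`).  So
the problem is semi-decidable too.
-/

set_option autoImplicit false

namespace Pool.Agent.Results.MP_a1720d_lc.DefectComputable

/-- The set of the palindromic factors of the word `w`, the empty word included. -/
def Pal (w : List ℕ) : Set (List ℕ) := {u | u <:+: w ∧ u.reverse = u}

/-- The defect `|w| + 1 - |Pal(w)|`. -/
noncomputable def D (w : List ℕ) : ℕ := w.length + 1 - (Pal w).ncard

/-- The finite factors of the right-infinite word `z 0, z 1, ...`. -/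
def FacR (z : ℕ → ℕ) : Set (List ℕ) := {u | ∃ m n : ℕ, u = (List.range n).map fun i => z (m + i)}

/-- The finite factors of the left-infinite word `..., z 1, z 0`. -/
def FacL (z : ℕ → ℕ) : Set (List ℕ) := {u | u.reverse ∈ FacR z}

/-- The finite factors of the two-way infinite word `z`. -/
def FacZ (z : ℤ → ℕ) : Set (List ℕ) :=
  {u | ∃ (m : ℤ) (n : ℕ), u = (List.range n).map fun i : ℕ => z (m + i)}

/-- `F` is the set of the finite factors of a right-infinite, left-infinite or two-way infinite
word. -/
def IsFactorSet (F : Set (List ℕ)) : Prop :=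
  (∃ z, F = FacR z) ∨ (∃ z, F = FacL z) ∨ ∃ z, F = FacZ z

/-- The infinite defect of `w`: the least defect (the supremum of the defects of the finite
factors) of an infinite word which has `w` as a factor and whose letters all occur in `w`. -/
noncomputable def Dinf (w : List ℕ) : ℕ∞ :=
  ⨅ F ∈ {F : Set (List ℕ) | IsFactorSet F ∧ w ∈ F ∧ ∀ u ∈ F, ∀ x ∈ u, x ∈ w},
    ⨆ u ∈ F, (D u : ℕ∞)

/-! ### The defect of a word grows by at most one with a new letter -/

theorem suffix_prefix_of_pal {u v : List ℕ} (hu : u.reverse = u) (hv : v.reverse = v)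
    (h : u <:+ v) : u <+: v := by
  rw [← List.reverse_suffix, hu, hv]
  exact h

/-- `V ++ [a]` has a palindromic suffix which is not a factor of `V` -/
def NewL (V : List ℕ) (a : ℕ) : Prop := ∃ u, u <:+ V ++ [a] ∧ u.reverse = u ∧ ¬ u <:+: V

theorem shorter_old {V : List ℕ} {a : ℕ} {u l : List ℕ} (hu : u <:+ V ++ [a]) (hur : u.reverse = u)
    (hl : l <:+ V ++ [a]) (hlr : l.reverse = l) (h : u.length < l.length) : u <:+: V := by
  have h1 : u <:+ l := List.suffix_of_suffix_length_le hu hl h.le
  have h2 : u <+: l := suffix_prefix_of_pal hur hlr h1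
  obtain ⟨r, hr⟩ := h2
  obtain ⟨s, hs⟩ := hl
  have hrne : r ≠ [] := by
    rintro rfl
    rw [List.append_nil] at hr
    rw [hr] at h
    omega
  obtain ⟨r', b, rfl⟩ : ∃ r' b, r = r' ++ [b] := ⟨r.dropLast, r.getLast hrne,
    (List.dropLast_append_getLast hrne).symm⟩
  rw [← hr] at hs
  have h3 : (s ++ (u ++ r')) ++ [b] = V ++ [a] := by
    rw [← hs]
    simp
  have h4 := (List.append_inj' h3 rfl).1
  exact ⟨s, r', by rw [← h4]; simp⟩

theorem exists_lps (V : List ℕ) (a : ℕ) : ∃ l, l <:+ V ++ [a] ∧ l.reverse = l ∧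
    ∀ u, u <:+ V ++ [a] → u.reverse = u → u.length ≤ l.length := by
  classical
  have hex : ∃ n, ∃ l, l <:+ V ++ [a] ∧ l.reverse = l ∧ l.length = n :=
    ⟨1, [a], List.suffix_append V [a], rfl, rfl⟩
  have hb : ∀ n, (∃ l, l <:+ V ++ [a] ∧ l.reverse = l ∧ l.length = n) → n ≤ (V ++ [a]).length := by
    rintro n ⟨l, hl, -, rfl⟩
    exact hl.length_le
  obtain ⟨l, hl, hlr, hlen⟩ := Nat.findGreatest_spec (P := fun n => ∃ l, l <:+ V ++ [a] ∧
    l.reverse = l ∧ l.length = n) (hb _ hex.choose_spec) hex.choose_spec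
  refine ⟨l, hl, hlr, fun u hu hur => ?_⟩
  rw [hlen]
  exact Nat.le_findGreatest (hb _ ⟨u, hu, hur, rfl⟩) ⟨u, hu, hur, rfl⟩

theorem Pal_concat {V : List ℕ} {a : ℕ} {l : List ℕ} (hl : l <:+ V ++ [a]) (hlr : l.reverse = l)
    (hmax : ∀ u, u <:+ V ++ [a] → u.reverse = u → u.length ≤ l.length) :
    Pal (V ++ [a]) = insert l (Pal V) := by
  ext u
  simp only [Pal, Set.mem_ofPred_eq, Set.mem_insert_iff]
  constructor
  · rintro ⟨h1, h2⟩
    rcases List.infix_concat_iff.1 h1 with h | h
    · rcases (hmax u h h2).eq_or_lt with h3 | h3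
      · left
        exact List.IsSuffix.eq_of_length (List.suffix_of_suffix_length_le h hl h3.le) h3
      · right
        exact ⟨shorter_old h h2 hl hlr h3, h2⟩
    · exact Or.inr ⟨h, h2⟩
  · rintro (rfl | ⟨h1, h2⟩)
    · exact ⟨hl.isInfix, hlr⟩
    · exact ⟨h1.trans (List.prefix_append V [a]).isInfix, h2⟩

theorem Pal_nil : Pal [] = {[]} := by
  ext u
  simp only [Pal, Set.mem_ofPred_eq, Set.mem_singleton_iff]
  constructor
  · rintro ⟨h, -⟩
    exact List.infix_nil.1 h
  · rintro rfl
    exact ⟨List.infix_rfl, rfl⟩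

theorem Pal_finite (V : List ℕ) : (Pal V).Finite ∧ (Pal V).ncard ≤ V.length + 1 := by
  induction V using List.reverseRecOn with
  | nil =>
    rw [Pal_nil]
    simp
  | append_singleton V a ih =>
    obtain ⟨l, hl, hlr, hmax⟩ := exists_lps V a
    rw [Pal_concat hl hlr hmax]
    refine ⟨ih.1.insert _, ?_⟩
    have := Set.ncard_insert_le l (Pal V)
    rw [List.length_append, List.length_singleton]
    omega

open Classical in
theorem D_concat (V : List ℕ) (a : ℕ) :
    D (V ++ [a]) = D V + if NewL V a then 0 else 1 := by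
  obtain ⟨l, hl, hlr, hmax⟩ := exists_lps V a
  obtain ⟨h1, h2⟩ := Pal_finite V
  unfold D
  rw [Pal_concat hl hlr hmax, List.length_append, List.length_singleton]
  by_cases hm : l ∈ Pal V
  · rw [Set.insert_eq_of_mem hm, if_neg]
    · omega
    · rintro ⟨u, hu, hur, hun⟩
      rcases (hmax u hu hur).eq_or_lt with h3 | h3
      · have := List.IsSuffix.eq_of_length (List.suffix_of_suffix_length_le hu hl h3.le) h3
        rw [this] at hun
        exact hun hm.1
      · exact hun (shorter_old hu hur hl hlr h3)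
  · rw [Set.ncard_insert_of_notMem hm h1, if_pos]
    · omega
    · exact ⟨l, hl, hlr, fun h => hm ⟨h, hlr⟩⟩

theorem D_reverse (V : List ℕ) : D V.reverse = D V := by
  have h : Pal V.reverse = Pal V := by
    ext u
    simp only [Pal, Set.mem_ofPred_eq]
    refine and_congr_left fun hu => ?_
    conv_lhs => rw [← hu]
    exact List.reverse_infix
  unfold D
  rw [h, List.length_reverse]

theorem D_prefix {u v : List ℕ} (h : u <+: v) : D u ≤ D v := by
  classical
  obtain ⟨r, rfl⟩ := h
  induction r using List.reverseRecOn with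
  | nil => simp
  | append_singleton r a ih =>
    rw [← List.append_assoc, D_concat]
    omega

theorem D_infix {u v : List ℕ} (h : u <:+: v) : D u ≤ D v := by
  obtain ⟨s, t, rfl⟩ := h
  have h1 : D (s ++ u) ≤ D (s ++ u ++ t) := D_prefix (List.prefix_append _ _)
  have h2 : D u ≤ D (s ++ u) := by
    rw [← D_reverse u, ← D_reverse (s ++ u), List.reverse_append]
    exact D_prefix (List.prefix_append _ _)
  exact h2.trans h1

theorem D_nil : D [] = 0 := by
  unfold D
  rw [Pal_nil]
  simp

/-! ### Words given by sequences -/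

/-- the factor of length `l` at the position `b` -/
def sg (z : ℕ → ℕ) (b l : ℕ) : List ℕ := (List.range l).map fun t => z (b + t)

/-- the prefix of length `n` -/
def pre (z : ℕ → ℕ) (n : ℕ) : List ℕ := (List.range n).map z

/-- the factor of length `l` at `b` also occurs at `b'` -/
def occ (z : ℕ → ℕ) (b b' l : ℕ) : Prop := ∀ t < l, z (b' + t) = z (b + t)

/-- the factor at the positions `b, ..., m - 1` is a palindrome -/
def pal (z : ℕ → ℕ) (b m : ℕ) : Prop := ∀ t < m - b, z (b + t) = z (m - 1 - t)

/-- the prefix of length `m` has a nonempty palindromic suffix without earlier occurrence -/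
def New (z : ℕ → ℕ) (m : ℕ) : Prop := ∃ b < m, pal z b m ∧ ∀ b' < b, ¬ occ z b b' (m - b)

theorem pre_succ (z : ℕ → ℕ) (n : ℕ) : pre z (n + 1) = pre z n ++ [z n] := by
  simp [pre, List.range_succ]

theorem pre_length (z : ℕ → ℕ) (n : ℕ) : (pre z n).length = n := by simp [pre]

theorem sg_length (z : ℕ → ℕ) (b l : ℕ) : (sg z b l).length = l := by simp [sg]

theorem sg_inj {z z' : ℕ → ℕ} {b b' l : ℕ} :
    sg z b l = sg z' b' l ↔ ∀ t < l, z (b + t) = z' (b' + t) := by
  unfold sg
  rw [List.map_inj_left]
  simp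

theorem sg_reverse (z : ℕ → ℕ) (b l : ℕ) :
    (sg z b l).reverse = sg z b l ↔ ∀ t < l, z (b + t) = z (b + (l - 1 - t)) := by
  constructor
  · intro h t ht
    have h1 := congrArg (fun w : List ℕ => w[t]?) h
    simp only [sg] at h1
    rw [List.getElem?_reverse (by simpa using ht)] at h1
    simp only [List.length_map, List.length_range, List.getElem?_map] at h1
    rw [List.getElem?_range (by omega), List.getElem?_range ht] at h1
    simp only [Option.map_some, Option.some.injEq] at h1
    exact h1.symm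
  · intro h
    apply List.ext_getElem?
    intro t
    by_cases ht : t < l
    · rw [List.getElem?_reverse (by rw [sg_length]; exact ht), sg_length]
      simp only [sg, List.getElem?_map]
      rw [List.getElem?_range (by omega), List.getElem?_range ht]
      simp only [Option.map_some, Option.some.injEq]
      exact (h t ht).symm
    · rw [List.getElem?_eq_none (by simp [sg_length]; omega),
        List.getElem?_eq_none (by simp [sg_length]; omega)]

theorem drop_pre (z : ℕ → ℕ) (m b : ℕ) : (pre z m).drop b = sg z b (m - b) := by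
  apply List.ext_getElem
  · simp [pre_length, sg_length]
  · intro i h1 h2
    simp [pre, sg]

theorem take_sg (z : ℕ → ℕ) (b l k : ℕ) : (sg z b l).take k = sg z b (min k l) := by
  apply List.ext_getElem
  · simp [sg_length]
  · intro i h1 h2
    simp [sg]

theorem suffix_pre {z : ℕ → ℕ} {m : ℕ} {u : List ℕ} :
    u <:+ pre z m ↔ ∃ b ≤ m, u = sg z b (m - b) := by
  constructor
  · intro h
    have h1 := List.suffix_iff_eq_drop.1 h
    have h2 := h.length_le
    rw [pre_length] at h1 h2
    refine ⟨m - u.length, by omega, ?_⟩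
    rw [← drop_pre]
    exact h1
  · rintro ⟨b, hb, rfl⟩
    rw [← drop_pre]
    exact List.drop_suffix _ _

theorem infix_pre {z : ℕ → ℕ} {m : ℕ} {u : List ℕ} :
    u <:+: pre z m ↔ ∃ b, b + u.length ≤ m ∧ u = sg z b u.length := by
  constructor
  · intro h
    obtain ⟨t, h1, h2⟩ := List.infix_iff_prefix_suffix.1 h
    obtain ⟨b, hb, rfl⟩ := suffix_pre.1 h2
    have h3 := List.prefix_iff_eq_take.1 h1
    have h4 := h1.length_le
    rw [sg_length] at h4
    rw [take_sg, min_eq_left h4] at h3
    exact ⟨b, by omega, h3⟩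
  · rintro ⟨b, hb, hu⟩
    rw [hu]
    refine List.infix_iff_prefix_suffix.2 ⟨sg z b (m - b), ?_, suffix_pre.2 ⟨b, by omega, rfl⟩⟩
    rw [List.prefix_iff_eq_take, take_sg, sg_length, min_eq_left (by omega)]

theorem pal_iff (z : ℕ → ℕ) {b m : ℕ} (hb : b ≤ m) :
    (sg z b (m - b)).reverse = sg z b (m - b) ↔ pal z b m := by
  rw [sg_reverse]
  unfold pal
  refine forall₂_congr fun t ht => ?_
  rw [show b + (m - b - 1 - t) = m - 1 - t by omega]

theorem NewL_iff (z : ℕ → ℕ) (n : ℕ) : NewL (pre z n) (z n) ↔ New z (n + 1) := by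
  unfold NewL New
  rw [← pre_succ]
  constructor
  · rintro ⟨u, hu, hur, hun⟩
    obtain ⟨b, hb, rfl⟩ := suffix_pre.1 hu
    have hbn : b < n + 1 := by
      by_contra h
      have : b = n + 1 := by omega
      subst this
      apply hun
      simp only [Nat.sub_self]
      exact List.nil_infix
    refine ⟨b, hbn, (pal_iff z hb).1 hur, fun b' hb' ho => hun ?_⟩
    rw [infix_pre]
    refine ⟨b', by rw [sg_length]; omega, ?_⟩
    rw [sg_length, sg_inj]
    exact fun t ht => (ho t ht).symm
  · rintro ⟨b, hb, hp, hno⟩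
    refine ⟨sg z b (n + 1 - b), suffix_pre.2 ⟨b, hb.le, rfl⟩, (pal_iff z hb.le).2 hp, fun h => ?_⟩
    obtain ⟨b', hb', hu⟩ := infix_pre.1 h
    rw [sg_length] at hb'
    rw [sg_length, sg_inj] at hu
    exact hno b' (by omega) fun t ht => (hu t ht).symm

open Classical in
theorem D_pre_succ (z : ℕ → ℕ) (n : ℕ) :
    D (pre z (n + 1)) = D (pre z n) + if New z (n + 1) then 0 else 1 := by
  rw [pre_succ, D_concat]
  simp only [NewL_iff]

open Classical in
/-- the defect of a prefix, as the number of the bad positions -/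
theorem D_pre (z : ℕ → ℕ) (n : ℕ) :
    D (pre z n) = ((List.range n).filter fun m => decide (¬ New z (m + 1))).length := by
  induction n with
  | zero => simp [pre, D_nil]
  | succ n ih =>
    rw [D_pre_succ, ih, List.range_succ, List.filter_append, List.length_append]
    congr 1
    by_cases h : New z (n + 1)
    · simp [h]
    · simp [h]

theorem New_congr {z z' : ℕ → ℕ} {m : ℕ} (h : ∀ i < m, z i = z' i) : New z m ↔ New z' m := by
  unfold New
  refine exists_congr fun b => and_congr_right fun hb => and_congr ?_ ?_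
  · unfold pal
    refine forall₂_congr fun t ht => ?_
    rw [h _ (by omega), h _ (by omega)]
  · refine forall₂_congr fun b' hb' => not_congr ?_
    unfold occ
    refine forall₂_congr fun t ht => ?_
    rw [h _ (by omega), h _ (by omega)]

theorem D_pre_mono (z : ℕ → ℕ) {m n : ℕ} (h : m ≤ n) : D (pre z m) ≤ D (pre z n) := by
  apply D_prefix
  rw [List.prefix_iff_eq_take]
  apply List.ext_getElem
  · simp [pre_length, h]
  · intro i h1 h2
    simp [pre]

/-! ### Periodic continuation -/

/-- The certificate: the prefix of length `N` has a nonempty palindromic suffix, starting at `j`,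
which has exactly one earlier occurrence, starting at `i`, and the factor from `i` to the end is a
palindrome. -/
def Cert (z : ℕ → ℕ) (N : ℕ) : Prop :=
  ∃ j < N, ∃ i < j, pal z j N ∧ pal z i N ∧ ∀ i' < j, occ z j i' (N - j) → i' = i

theorem per_add {z : ℕ → ℕ} {T i0 : ℕ} (h : ∀ x, i0 ≤ x → z x = z (x + T)) (x k : ℕ)
    (hx : i0 ≤ x) : z x = z (x + k * T) := by
  induction k with
  | zero => simp
  | succ k ih =>
    rw [ih, h _ (by omega)]
    congr 1
    ring

theorem per_mod {z : ℕ → ℕ} {T i0 : ℕ} (h : ∀ x, i0 ≤ x → z x = z (x + T)) (x y : ℕ)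
    (hx : i0 ≤ x) (hy : i0 ≤ y) (hxy : x % T = y % T) : z x = z y := by
  wlog hle : x ≤ y generalizing x y
  · exact (this y x hy hx hxy.symm (by omega)).symm
  obtain ⟨k, hk⟩ : T ∣ y - x := (Nat.modEq_iff_dvd' hle).1 hxy
  have hy' : y = x + k * T := by
    rw [mul_comm] at hk
    omega
  rw [hy']
  exact per_add h x k hx

theorem new_of_cert {z : ℕ → ℕ} {N i j : ℕ} (hij : i < j) (hjN : j < N)
    (h2 : pal z i N) (h3 : ∀ i' < j, occ z j i' (N - j) → i' = i)
    (hper : ∀ x, i ≤ x → z x = z (x + (j - i))) (n : ℕ) (hn : N < n) : New z n := by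
  classical
  set T := j - i with hT
  have hT0 : 0 < T := by omega
  have hex : ∃ i0, ∀ x, i0 ≤ x → z x = z (x + T) := ⟨i, hper⟩
  set i0 := Nat.find hex with hi0
  have hp0 : ∀ x, i0 ≤ x → z x = z (x + T) := Nat.find_spec hex
  have hle : i0 ≤ i := Nat.find_min' hex hper
  -- the left end of the suffix
  obtain ⟨b, hb1, hb2, hb3⟩ : ∃ b, i0 ≤ b ∧ b < i0 + T ∧ (b + n) % T = (i + N) % T := by
    refine ⟨i0 + (i + N + (T - 1) * (n + i0)) % T, by omega, ?_, ?_⟩
    · have := Nat.mod_lt (i + N + (T - 1) * (n + i0)) hT0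
      omega
    · have e : i0 + (i + N + (T - 1) * (n + i0)) % T + n =
          (i + N + (T - 1) * (n + i0)) % T + (n + i0) := by omega
      rw [e, Nat.mod_add_mod]
      have e2 : i + N + (T - 1) * (n + i0) + (n + i0) = i + N + T * (n + i0) := by
        obtain ⟨T', hT'⟩ : ∃ T', T = T' + 1 := ⟨T - 1, by omega⟩
        rw [hT']
        simp only [Nat.add_sub_cancel]
        ring
      rw [e2, Nat.add_mul_mod_self_left]
  have hbj : b < j := by omega
  -- the reflection
  have hrefl : ∀ x y, i0 ≤ x → i0 ≤ y → x + y + 1 = b + n → z x = z y := by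
    intro x y hx hy hxy
    -- representative of `x` in `[i, i + T)`
    obtain ⟨x', hx1, hx2, hx3⟩ : ∃ x', i ≤ x' ∧ x' < i + T ∧ x' % T = x % T := by
      refine ⟨i + (x + (T - 1) * i) % T, by omega, ?_, ?_⟩
      · have := Nat.mod_lt (x + (T - 1) * i) hT0
        omega
      · rw [Nat.add_mod_mod]
        have e2 : i + (x + (T - 1) * i) = x + T * i := by
          obtain ⟨T', hT'⟩ : ∃ T', T = T' + 1 := ⟨T - 1, by omega⟩
          rw [hT']
          simp only [Nat.add_sub_cancel]
          ring
        rw [e2, Nat.add_mul_mod_self_left]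
    have e1 : z x = z x' := per_mod hp0 x x' hx (by omega) hx3.symm
    have e2 : z x' = z (i + N - 1 - x') := by
      have := h2 (x' - i) (by omega)
      rw [show i + (x' - i) = x' by omega, show N - 1 - (x' - i) = i + N - 1 - x' by omega] at this
      exact this
    have e3 : z (i + N - 1 - x') = z y := by
      refine per_mod hp0 _ _ (by omega) hy ?_
      have h5 : (x' + (i + N - 1 - x')) + 1 = i + N := by omega
      have h6 : (x' + (i + N - 1 - x') + 1) % T = (x' + y + 1) % T := by
        rw [h5, ← hb3, ← hxy]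
        exact Nat.ModEq.add_right 1 (Nat.ModEq.add_right y hx3.symm)
      have h7 : (x' + (i + N - 1 - x')) ≡ (x' + y) [MOD T] := Nat.ModEq.add_right_cancel' 1 h6
      exact Nat.ModEq.add_left_cancel' x' h7
    rw [e1, e2, e3]
  refine ⟨b, by omega, ?_, ?_⟩
  · intro t ht
    exact hrefl _ _ (by omega) (by omega) (by omega)
  · intro b' hb' ho
    have h5 : occ z j (b' + (j - b)) (N - j) := by
      intro t ht
      have := ho (j - b + t) (by omega)
      rw [← add_assoc, show b + (j - b + t) = j + t by omega] at this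
      exact this
    have h6 := h3 (b' + (j - b)) (by omega) h5
    -- `b' = b - T`
    have h7 : b' + T = b := by omega
    have h8 : i0 ≠ 0 := by omega
    obtain ⟨i1, hi1⟩ : ∃ i1, i0 = i1 + 1 := ⟨i0 - 1, by omega⟩
    have h9 : ¬ ∀ x, i1 ≤ x → z x = z (x + T) := Nat.find_min hex (by omega)
    apply h9
    intro x hx
    rcases hx.eq_or_lt with h10 | h10
    · subst h10
      have := ho (i1 - b') (by omega)
      rw [show b' + (i1 - b') = i1 by omega, show b + (i1 - b') = i1 + T by omega] at this
      exact this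
    · exact hp0 x (by omega)

theorem pal_congr {z z' : ℕ → ℕ} {b m : ℕ} (h : ∀ i < m, z i = z' i) : pal z b m ↔ pal z' b m := by
  unfold pal
  refine forall₂_congr fun t ht => ?_
  rw [h _ (by omega), h _ (by omega)]

theorem Cert_congr {z z' : ℕ → ℕ} {N : ℕ} (h : ∀ i < N, z i = z' i) : Cert z N ↔ Cert z' N := by
  unfold Cert
  refine exists_congr fun j => and_congr_right fun hj => exists_congr fun i =>
    and_congr_right fun hi => and_congr (pal_congr h) (and_congr (pal_congr h) ?_)
  refine forall₂_congr fun i' hi' => imp_congr ?_ Iff.rfl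
  unfold occ
  refine forall₂_congr fun t ht => ?_
  rw [h _ (by omega), h _ (by omega)]

theorem pre_congr {z z' : ℕ → ℕ} {N : ℕ} (h : ∀ i < N, z i = z' i) : pre z N = pre z' N := by
  unfold pre
  rw [List.map_inj_left]
  intro a ha
  exact h a (List.mem_range.1 ha)

/-- the continuation with period `T` of the word `z 0, ..., z (N - 1)` -/
def ext (z : ℕ → ℕ) (N T : ℕ) (n : ℕ) : ℕ :=
  if h : n < N ∨ T = 0 ∨ n < T then z n else ext z N T (n - T)
  termination_by n
  decreasing_by omega

theorem ext_lt (z : ℕ → ℕ) (N T n : ℕ) (h : n < N) : ext z N T n = z n := by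
  rw [ext, dif_pos (Or.inl h)]

theorem ext_add (z : ℕ → ℕ) (N T n : ℕ) (hT : 0 < T) (h : N ≤ n + T) :
    ext z N T (n + T) = ext z N T n := by
  rw [ext, dif_neg (by omega), Nat.add_sub_cancel]

theorem ext_mem (z : ℕ → ℕ) (N T : ℕ) (hT0 : 0 < T) (hT : T ≤ N) (P : ℕ → Prop)
    (h : ∀ i < N, P (z i)) (n : ℕ) : P (ext z N T n) := by
  induction n using Nat.strong_induction_on with
  | _ n ih =>
    rw [ext]
    split_ifs with h1
    · exact h n (by omega)
    · exact ih _ (by omega)

theorem D_pre_const {z : ℕ → ℕ} {N : ℕ} (h : ∀ n, N < n → New z n) (n : ℕ) :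
    D (pre z n) ≤ D (pre z N) := by
  classical
  rcases Nat.le_total n N with h1 | h1
  · exact D_pre_mono z h1
  · induction n, h1 using Nat.le_induction with
    | base => exact le_rfl
    | succ n hn ih =>
      rw [D_pre_succ, if_pos (h _ (by omega)), add_zero]
      exact ih

/-- A word with a certificate has a right-infinite continuation with the same defect. -/
theorem continuation {z : ℕ → ℕ} {N : ℕ} (h : Cert z N) : ∃ z' : ℕ → ℕ,
    (∀ i < N, z' i = z i) ∧ (∀ n, ∃ i < N, z' n = z i) ∧ ∀ n, D (pre z' n) ≤ D (pre z N) := by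
  obtain ⟨j, hj, i, hi, h1, h2, h3⟩ := h
  have hlt := ext_lt z N (j - i)
  refine ⟨ext z N (j - i), hlt, ?_, ?_⟩
  · intro n
    exact ext_mem z N (j - i) (by omega) (by omega) (fun x => ∃ i < N, x = z i)
      (fun i hi => ⟨i, hi, rfl⟩) n
  · intro n
    rw [pre_congr (z' := ext z N (j - i)) (N := N) (fun x hx => (hlt x hx).symm)]
    refine D_pre_const (fun m hm => ?_) n
    refine new_of_cert hi hj
      ((pal_congr fun x hx => (hlt x hx).symm).1 h2) ?_ ?_ m hm
    · intro i' hi' ho
      apply h3 i' hi'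
      intro t ht
      rw [← hlt _ (by omega), ← hlt _ (by omega)]
      exact ho t ht
    · intro x hx
      by_cases hxN : N ≤ x + (j - i)
      · exact (ext_add z N (j - i) x (by omega) hxN).symm
      · rw [hlt _ (by omega), hlt _ (by omega)]
        have e1 := h2 (x - i) (by omega)
        have e2 := h1 (x - i) (by omega)
        rw [show i + (x - i) = x by omega] at e1
        rw [show j + (x - i) = x + (j - i) by omega] at e2
        rw [e1, e2]

/-! ### Certificates exist -/

section Exist

variable (z : ℕ → ℕ)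

theorem pal_self (n : ℕ) : pal z n n := by
  intro t ht
  omega

open Classical in
/-- the left end of the longest palindromic suffix of the prefix of length `n` -/
noncomputable def A (n : ℕ) : ℕ := Nat.find (p := fun a => pal z a n) ⟨n, pal_self z n⟩

theorem A_pal (n : ℕ) : pal z (A z n) n := by
  classical
  exact Nat.find_spec (p := fun a => pal z a n) ⟨n, pal_self z n⟩

theorem A_le {n a : ℕ} (h : pal z a n) : A z n ≤ a := by
  classical
  exact Nat.find_min' (p := fun a => pal z a n) _ h

theorem A_lt (n : ℕ) (hn : 0 < n) : A z n < n := by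
  have : pal z (n - 1) n := by
    intro t ht
    have : t = 0 := by omega
    subst this
    simp
  have := A_le z this
  omega

variable {z}

theorem mirror {a c n : ℕ} (ha : a ≤ c) (h1 : pal z a n) (h2 : pal z c n) :
    occ z c a (n - c) := by
  intro t ht
  rw [h1 t (by omega), h2 t ht]

theorem occ_trans {b b' b'' l : ℕ} (h1 : occ z b b' l) (h2 : occ z b' b'' l) : occ z b b'' l :=
  fun t ht => (h2 t ht).trans (h1 t ht)

theorem occ_symm {b b' l : ℕ} (h1 : occ z b b' l) : occ z b' b l := fun t ht => (h1 t ht).symm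

theorem A_uni {n : ℕ} (h : New z n) (b' : ℕ) (hb : b' < A z n) : ¬ occ z (A z n) b' (n - A z n) := by
  obtain ⟨b, hb1, hb2, hb3⟩ := h
  have h1 := A_le z hb2
  intro ho
  apply hb3 (b' + (b - A z n)) (by omega)
  intro t ht
  have := ho (b - A z n + t) (by omega)
  rw [← add_assoc, show A z n + (b - A z n + t) = b + t by omega] at this
  exact this

theorem pal_of_occ {b b' l : ℕ} (h : pal z b (b + l)) (ho : occ z b b' l) : pal z b' (b' + l) := by
  intro t ht
  have ht' : t < l := by omega
  rw [ho t ht', h t (by omega), show b' + l - 1 - t = b' + (l - 1 - t) by omega,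
    ho (l - 1 - t) (by omega), show b + l - 1 - t = b + (l - 1 - t) by omega]

/-- Without certificates the longest palindromic suffixes occur only once in the infinite word. -/
theorem only_once {n0 : ℕ} (hnew : ∀ n, n0 < n → New z n) (hno : ∀ N, n0 < N → ¬ Cert z N)
    {n : ℕ} (hn : n0 < n) (b' : ℕ) (hb : occ z (A z n) b' (n - A z n)) : b' = A z n := by
  classical
  rcases lt_trichotomy b' (A z n) with h | h | h
  · exact absurd hb (A_uni (hnew n hn) b' h)
  · exact h
  · exfalso
    have hex : ∃ b, A z n < b ∧ occ z (A z n) b (n - A z n) := ⟨b', h, hb⟩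
    obtain ⟨h1, h2⟩ := Nat.find_spec hex
    set b := Nat.find hex with hbdef
    have hAn := A_lt z n (by omega)
    set l := n - A z n with hl
    have hAl : A z n + l = n := by omega
    have hpal : pal z (A z n) (A z n + l) := by rw [hAl]; exact A_pal z n
    have hpb : pal z b (b + l) := pal_of_occ hpal h2
    have huniq : ∀ i' < b, occ z b i' l → i' = A z n := by
      intro i' hi' ho
      have h3 : occ z (A z n) i' l := occ_trans h2 ho
      rcases lt_trichotomy i' (A z n) with h4 | h4 | h4
      · exact absurd h3 (A_uni (hnew n hn) i' h4)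
      · exact h4
      · exact absurd ⟨h4, h3⟩ (Nat.find_min hex hi')
    apply hno (b + l) (by omega)
    have hNl : b + l - b = l := by omega
    refine ⟨b, by omega, A z n, h1, hpb, ?_, ?_⟩
    · have h5 : A z (b + l) ≤ b := A_le z hpb
      have h6 : A z (b + l) ≠ b := by
        intro h6
        have h7 := A_uni (hnew (b + l) (by omega)) (A z n) (by omega)
        rw [h6, hNl] at h7
        exact h7 (occ_symm h2)
      have h8 := mirror h5 (A_pal z (b + l)) hpb
      rw [hNl] at h8
      rw [← huniq _ (by omega) h8]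
      exact A_pal z (b + l)
    · rw [hNl]
      exact huniq

/-- infinitely many of the longest palindromic suffixes are short -/
theorem short {n0 : ℕ} (honce : ∀ n, n0 < n → ∀ b', occ z (A z n) b' (n - A z n) → b' = A z n)
    (n1 : ℕ) : ∃ n, n1 < n ∧ n0 < n ∧ n - A z n ≤ n0 + 2 := by
  classical
  -- a step at which the centre moves
  obtain ⟨n, hn, hA⟩ : ∃ n, max n0 n1 < n ∧ A z n ≤ A z (n + 1) := by
    by_contra hcon
    push Not at hcon
    have h1 : ∀ t, A z (max n0 n1 + 1 + t) + t ≤ A z (max n0 n1 + 1) := by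
      intro t
      induction t with
      | zero => simp
      | succ t ih =>
        have := hcon (max n0 n1 + 1 + t) (by omega)
        rw [show max n0 n1 + 1 + (t + 1) = max n0 n1 + 1 + t + 1 by omega]
        omega
    have h2 := h1 (A z (max n0 n1 + 1) + 1)
    omega
  refine ⟨n + 1, by omega, by omega, ?_⟩
  by_contra hlong
  set c := A z (n + 1) + 1 with hc
  have hcn : c < n := by omega
  have hpc : pal z c n := by
    intro t ht
    have := A_pal z (n + 1) (t + 1) (by omega)
    rw [show A z (n + 1) + (t + 1) = c + t by omega,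
      show n + 1 - 1 - (t + 1) = n - 1 - t by omega] at this
    exact this
  have hmir : occ z c (A z n) (n - c) := mirror (by omega) (A_pal z n) hpc
  have hex : ∃ f, occ z c f (n - c) := ⟨A z n, hmir⟩
  set f := Nat.find hex with hf
  have hfs : occ z c f (n - c) := Nat.find_spec hex
  have hfle : f ≤ A z n := Nat.find_min' hex hmir
  set l := n - c with hl
  have hpc' : pal z c (c + l) := by
    rw [show c + l = n by omega]
    exact hpc
  have hpf : pal z f (f + l) := pal_of_occ hpc' hfs
  have hAf : A z (f + l) = f := by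
    have h1 := A_le z hpf
    by_contra hne
    have h2 : A z (f + l) < f := by omega
    have h3 := mirror h1 (A_pal z (f + l)) hpf
    rw [show f + l - f = l by omega] at h3
    exact Nat.find_min hex h2 (occ_trans hfs h3)
  have hlt : n0 < f + l := by omega
  have h4 := honce (f + l) hlt c (by
    rw [hAf, show f + l - f = l by omega]
    exact occ_symm hfs)
  omega

theorem finite_lists (F : Finset ℕ) (L : ℕ) :
    {l : List ℕ | l.length ≤ L ∧ ∀ x ∈ l, x ∈ F}.Finite := by
  have h1 := List.finite_length_le {x // x ∈ F} L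
  refine (h1.image (List.map Subtype.val)).subset ?_
  rintro l ⟨hl, hm⟩
  refine ⟨l.attach.map fun x => ⟨x.1, hm _ x.2⟩, ?_, ?_⟩
  · simpa using hl
  · simp

/-- An infinite word over a finite alphabet with finite defect has arbitrarily long prefixes with a
certificate. -/
theorem exists_cert (F : Finset ℕ) (hF : ∀ n, z n ∈ F) (k : ℕ) (hk : ∀ n, D (pre z n) ≤ k)
    (m : ℕ) : ∃ N, m < N ∧ Cert z N := by
  classical
  -- the defect is attained
  obtain ⟨n0, hm0, hn0⟩ : ∃ n0, m ≤ n0 ∧ ∀ n, D (pre z n) ≤ D (pre z n0) := by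
    have hex : ∃ d, ∃ n, D (pre z n) = d := ⟨_, 0, rfl⟩
    obtain ⟨n, hn⟩ := Nat.findGreatest_spec (P := fun d => ∃ n, D (pre z n) = d) (hk 0) ⟨0, rfl⟩
    refine ⟨max m n, le_max_left _ _, fun n' => ?_⟩
    calc D (pre z n') ≤ Nat.findGreatest (fun d => ∃ n, D (pre z n) = d) k :=
          Nat.le_findGreatest (hk n') ⟨n', rfl⟩
      _ = D (pre z n) := hn.symm
      _ ≤ D (pre z (max m n)) := D_pre_mono z (le_max_right _ _)
  have hnew : ∀ n, n0 < n → New z n := by
    intro n hn
    obtain ⟨n', rfl⟩ : ∃ n', n = n' + 1 := ⟨n - 1, by omega⟩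
    by_contra hcon
    have h1 := D_pre_succ z n'
    rw [if_neg hcon] at h1
    have h2 := hn0 (n' + 1)
    have h3 := D_pre_mono z (show n0 ≤ n' by omega)
    omega
  by_contra hno
  push Not at hno
  have hno' : ∀ N, n0 < N → ¬ Cert z N := fun N hN => hno N (by omega)
  have honce := fun n hn b' => only_once hnew hno' (n := n) hn b'
  have hinf : {n | n0 < n ∧ n - A z n ≤ n0 + 2}.Infinite := by
    refine Set.infinite_of_forall_exists_gt fun n1 => ?_
    obtain ⟨n, h1, h2, h3⟩ := short honce n1
    exact ⟨n, ⟨h2, h3⟩, h1⟩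
  obtain ⟨n, hn, n', hn', hne, heq⟩ := hinf.exists_ne_map_eq_of_mapsTo
    (f := fun n => sg z (A z n) (n - A z n))
    (t := {l : List ℕ | l.length ≤ n0 + 2 ∧ ∀ x ∈ l, x ∈ F}) (by
      rintro n ⟨h1, h2⟩
      refine ⟨by rw [sg_length]; exact h2, ?_⟩
      intro x hx
      simp only [sg, List.mem_map, List.mem_range] at hx
      obtain ⟨t, -, rfl⟩ := hx
      exact hF _) (finite_lists F (n0 + 2))
  have hlen := congrArg List.length heq
  simp only [sg_length] at hlen
  rw [← hlen, sg_inj] at heq
  have h1 := honce n hn.1 (A z n') (fun t ht => (heq t ht).symm)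
  have h2 := A_lt z n (by have := hn.1; omega)
  have h3 := A_lt z n' (by have := hn'.1; omega)
  omega

end Exist

/-! ### The three conditions -/

/-- the sequence of the letters of a word -/
def gd (V : List ℕ) (i : ℕ) : ℕ := V.getD i 0

theorem pre_gd (V : List ℕ) : pre (gd V) V.length = V := by
  apply List.ext_getElem
  · rw [pre_length]
  · intro i h1 h2
    simp only [pre, gd, List.getElem_map, List.getElem_range]
    exact List.getD_eq_getElem _ _ h2

theorem take_pre (z : ℕ → ℕ) {m n : ℕ} (h : m ≤ n) : (pre z n).take m = pre z m := by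
  apply List.ext_getElem
  · simp [pre_length, h]
  · intro i h1 h2
    simp [pre]

theorem gd_pre (z : ℕ → ℕ) {n i : ℕ} (h : i < n) : gd (pre z n) i = z i := by
  unfold gd
  rw [List.getD_eq_getElem _ _ (by rw [pre_length]; exact h)]
  simp [pre]

/-- there is a right-infinite continuation of defect at most `k` -/
def PR (w : List ℕ) (k : ℕ) : Prop :=
  ∃ z : ℕ → ℕ, pre z w.length = w ∧ (∀ n, z n ∈ w) ∧ ∀ n, D (pre z n) ≤ k

/-- there is a finite continuation with a certificate -/
def AR (w : List ℕ) (k : ℕ) (V : List ℕ) : Prop :=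
  V.take w.length = w ∧ (∀ x ∈ V, x ∈ w) ∧ D V ≤ k ∧ Cert (gd V) V.length

/-- `V` is a continuation of `w` of length `|w| + n` -/
def Cont (w : List ℕ) (n : ℕ) (V : List ℕ) : Prop :=
  V.take w.length = w ∧ (∀ x ∈ V, x ∈ w) ∧ V.length = w.length + n

theorem PR_of_AR {w V : List ℕ} {k : ℕ} (h : AR w k V) : PR w k := by
  obtain ⟨h1, h2, h3, h4⟩ := h
  have hle : w.length ≤ V.length := by
    have := congrArg List.length h1
    rw [List.length_take] at this
    omega
  obtain ⟨z, hz1, hz2, hz3⟩ := continuation h4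
  refine ⟨z, ?_, ?_, ?_⟩
  · rw [pre_congr (z' := gd V) (fun i hi => hz1 i (by omega)), ← take_pre (gd V) hle, pre_gd, h1]
  · intro n
    obtain ⟨i, hi, hn⟩ := hz2 n
    rw [hn]
    apply h2
    unfold gd
    rw [List.getD_eq_getElem _ _ hi]
    exact List.getElem_mem hi
  · intro n
    refine (hz3 n).trans ?_
    rw [pre_gd]
    exact h3

theorem AR_of_PR {w : List ℕ} {k : ℕ} (h : PR w k) : ∃ V, AR w k V := by
  obtain ⟨z, h1, h2, h3⟩ := h
  obtain ⟨N, hN, hc⟩ := exists_cert w.toFinset (fun n => List.mem_toFinset.2 (h2 n)) k h3 w.length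
  refine ⟨pre z N, ?_, ?_, h3 N, ?_⟩
  · rw [take_pre z hN.le, h1]
  · intro x hx
    simp only [pre, List.mem_map] at hx
    obtain ⟨i, -, rfl⟩ := hx
    exact h2 i
  · rw [pre_length]
    exact (Cert_congr fun i hi => gd_pre z hi).2 hc

theorem Cont_of_PR {w : List ℕ} {k : ℕ} (h : PR w k) (n : ℕ) : ∃ V, Cont w n V ∧ D V ≤ k := by
  obtain ⟨z, h1, h2, h3⟩ := h
  refine ⟨pre z (w.length + n), ⟨?_, ?_, pre_length _ _⟩, h3 _⟩
  · rw [take_pre z (by omega), h1]
  · intro x hx
    simp only [pre, List.mem_map] at hx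
    obtain ⟨i, -, rfl⟩ := hx
    exact h2 i

/-- `V` has arbitrarily long continuations of defect at most `k` with letters in `w` -/
def Long (w : List ℕ) (k : ℕ) (V : List ℕ) : Prop :=
  ∀ n, ∃ V', V'.take V.length = V ∧ (∀ x ∈ V', x ∈ w) ∧ V'.length = V.length + n ∧ D V' ≤ k

theorem long_step {w : List ℕ} {k : ℕ} {V : List ℕ} (h : Long w k V) :
    ∃ a, Long w k (V ++ [a]) := by
  by_contra hcon
  push Not at hcon
  unfold Long at hcon
  push Not at hcon
  choose N hN using hcon
  obtain ⟨V', h1, h2, h3, h4⟩ := h (1 + (w.map N).sum)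
  have hlt : V.length < V'.length := by omega
  set a := V'[V.length] with ha
  have haw : a ∈ w := h2 a (List.getElem_mem hlt)
  have hle : N a ≤ (w.map N).sum := List.single_le_sum (by simp) _ (List.mem_map_of_mem haw)
  have hlen : (V'.take (V.length + 1 + N a)).length = V.length + 1 + N a := by
    rw [List.length_take]
    omega
  have h5 := hN a (V'.take (V.length + 1 + N a)) (by
    rw [List.length_append, List.length_singleton, List.take_take, min_eq_left (by omega),
      List.take_succ_eq_append_getElem hlt, h1]) (fun x hx => h2 x (List.mem_of_mem_take hx)) (by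
    rw [hlen, List.length_append, List.length_singleton])
  have h6 : D (V'.take (V.length + 1 + N a)) ≤ D V' := D_prefix (List.take_prefix _ _)
  omega

/-- the sequence of the words in the proof of the lemma of König -/
noncomputable def chain {w : List ℕ} {k : ℕ} {V : List ℕ} (h : Long w k V) :
    ℕ → {V // Long w k V}
  | 0 => ⟨V, h⟩
  | n + 1 => ⟨(chain h n).1 ++ [(long_step (chain h n).2).choose],
      (long_step (chain h n).2).choose_spec⟩

theorem PR_of_Cont {w : List ℕ} {k : ℕ} (h : ∀ n, ∃ V, Cont w n V ∧ D V ≤ k) : PR w k := by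
  have hL : Long w k w := by
    intro n
    obtain ⟨V, ⟨h1, h2, h3⟩, h4⟩ := h n
    exact ⟨V, h1, h2, h3, h4⟩
  have hlen : ∀ n, (chain hL n).1.length = w.length + n := by
    intro n
    induction n with
    | zero => rfl
    | succ n ih =>
      simp only [chain, List.length_append, List.length_singleton, ih]
      omega
  have hpre : ∀ n m, n ≤ m → (chain hL n).1 <+: (chain hL m).1 := by
    intro n m hnm
    induction m, hnm using Nat.le_induction with
    | base => exact List.prefix_rfl
    | succ m hm ih =>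
      simp only [chain]
      exact ih.trans (List.prefix_append _ _)
  have hmem : ∀ n, ∀ x ∈ (chain hL n).1, x ∈ w := by
    intro n x hx
    obtain ⟨V', h1, h2, -, -⟩ := (chain hL n).2 0
    apply h2
    rw [← h1] at hx
    exact List.mem_of_mem_take hx
  have hD : ∀ n, D (chain hL n).1 ≤ k := by
    intro n
    obtain ⟨V', h1, -, -, h4⟩ := (chain hL n).2 0
    rw [← h1]
    exact (D_prefix (List.take_prefix _ _)).trans h4
  let z : ℕ → ℕ := fun n => gd (chain hL (n + 1)).1 n
  have hz : ∀ n m, m < w.length + n → z m = gd (chain hL n).1 m := by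
    intro n m hm
    have h1 : m < (chain hL (m + 1)).1.length := by rw [hlen]; omega
    have h2 : m < (chain hL n).1.length := by rw [hlen]; omega
    simp only [z, gd]
    rw [List.getD_eq_getElem _ _ h1, List.getD_eq_getElem _ _ h2]
    rcases Nat.le_total (m + 1) n with h3 | h3
    · exact (hpre _ _ h3).getElem h1
    · exact ((hpre _ _ h3).getElem h2).symm
  have hpz : ∀ n, pre z (w.length + n) = (chain hL n).1 := by
    intro n
    rw [pre_congr (z' := gd (chain hL n).1) (fun i hi => hz n i hi), ← hlen n, pre_gd]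
  refine ⟨z, ?_, ?_, ?_⟩
  · have := hpz 0
    rw [add_zero] at this
    rw [this]
    rfl
  · intro n
    have h1 : n < (chain hL (n + 1)).1.length := by rw [hlen]; omega
    apply hmem (n + 1)
    simp only [z, gd]
    rw [List.getD_eq_getElem _ _ h1]
    exact List.getElem_mem h1
  · intro n
    refine le_trans ?_ (hD n)
    rw [← hpz n]
    exact D_pre_mono z (by omega)

/-! ### Finiteness -/

theorem exists_PR {w : List ℕ} (hw : w ≠ []) : ∃ k, PR w k := by
  classical
  obtain ⟨a, ha⟩ := List.exists_mem_of_ne_nil w hw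
  let z : ℕ → ℕ := fun n => if n < w.length then gd w n else a
  have hza : ∀ n, w.length ≤ n → z n = a := by
    intro n hn
    simp only [z]
    rw [if_neg (by omega)]
  have hex : ∃ i0, ∀ x, i0 ≤ x → z x = a := ⟨w.length, hza⟩
  set i0 := Nat.find hex with hi0
  have hp0 : ∀ x, i0 ≤ x → z x = a := Nat.find_spec hex
  have hle : i0 ≤ w.length := Nat.find_min' hex hza
  have hnew : ∀ n, 2 * w.length < n → New z n := by
    intro n hn
    refine ⟨i0, by omega, ?_, ?_⟩
    · intro t ht
      rw [hp0 _ (by omega), hp0 _ (by omega)]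
    · intro b' hb' ho
      obtain ⟨i1, hi1⟩ : ∃ i1, i0 = i1 + 1 := ⟨i0 - 1, by omega⟩
      have h9 : ¬ ∀ x, i1 ≤ x → z x = a := Nat.find_min hex (by omega)
      apply h9
      intro x hx
      rcases hx.eq_or_lt with h10 | h10
      · subst h10
        have := ho (i1 - b') (by omega)
        rw [show b' + (i1 - b') = i1 by omega] at this
        rw [this]
        exact hp0 _ (by omega)
      · exact hp0 x (by omega)
  refine ⟨D (pre z (2 * w.length)), z, ?_, ?_, D_pre_const hnew⟩
  · rw [pre_congr (z' := gd w) (N := w.length) (fun i hi => by simp only [z]; rw [if_pos hi]),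
      pre_gd]
  · intro n
    simp only [z]
    split_ifs with h
    · unfold gd
      rw [List.getD_eq_getElem _ _ h]
      exact List.getElem_mem h
    · exact ha

/-! ### The infinite defect -/

theorem FacR_iff {z : ℕ → ℕ} {u : List ℕ} : u ∈ FacR z ↔ ∃ m n, u = sg z m n := Iff.rfl

theorem D_le_of_FacR {z : ℕ → ℕ} {k : ℕ} (h : ∀ n, D (pre z n) ≤ k) {u : List ℕ}
    (hu : u ∈ FacR z) : D u ≤ k := by
  obtain ⟨m, n, rfl⟩ := FacR_iff.1 hu
  refine (D_infix (v := pre z (m + n)) ?_).trans (h _)
  rw [infix_pre]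
  exact ⟨m, by rw [sg_length], by rw [sg_length]⟩

theorem PR_of_fac {w : List ℕ} {k : ℕ} (z : ℕ → ℕ) (hw : pre z w.length = w)
    (hl : ∀ n, ∀ x ∈ sg z n 1, x ∈ w) (hD : ∀ n, D (sg z 0 n) ≤ k) : PR w k := by
  refine ⟨z, hw, fun n => hl n _ (by simp [sg]), fun n => ?_⟩
  have := hD n
  unfold sg at this
  simpa [pre] using this

theorem Dinf_le {w : List ℕ} {k : ℕ} : Dinf w ≤ k ↔ PR w k ∨ PR w.reverse k := by
  constructor
  · intro h
    obtain ⟨F, ⟨hF1, hF2, hF3⟩, hF4⟩ : ∃ F ∈ {F : Set (List ℕ) | IsFactorSet F ∧ w ∈ F ∧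
        ∀ u ∈ F, ∀ x ∈ u, x ∈ w}, ⨆ u ∈ F, (D u : ℕ∞) ≤ (k : ℕ∞) := by
      by_contra hcon
      push Not at hcon
      have h1 : ((k : ℕ∞) + 1) ≤ Dinf w := by
        unfold Dinf
        refine le_iInf₂ fun F hF => ?_
        exact Order.add_one_le_of_lt (hcon F hF)
      have h2 := h1.trans h
      have h3 : (k : ℕ∞) < k + 1 := by
        exact_mod_cast Nat.lt_succ_self k
      exact absurd h2 (not_le.2 h3)
    have hD : ∀ u ∈ F, D u ≤ k := by
      intro u hu
      have := (iSup₂_le_iff.1 hF4) u hu
      exact_mod_cast this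
    rcases hF1 with ⟨z, rfl⟩ | ⟨z, rfl⟩ | ⟨z, rfl⟩
    · left
      obtain ⟨m, n, hw⟩ := FacR_iff.1 hF2
      have hn : w.length = n := by rw [hw, sg_length]
      have hs : ∀ i l, sg (fun i => z (m + i)) i l = sg z (m + i) l := by
        intro i l
        rw [sg_inj]
        intro t _
        rw [add_assoc]
      refine PR_of_fac (fun i => z (m + i)) ?_ ?_ ?_
      · rw [hn, hw]
        rfl
      · intro i
        rw [hs]
        exact hF3 _ (FacR_iff.2 ⟨_, _, rfl⟩)
      · intro i
        rw [hs]
        exact hD _ (FacR_iff.2 ⟨_, _, rfl⟩)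
    · right
      obtain ⟨m, n, hw⟩ := FacR_iff.1 hF2
      have hn : w.reverse.length = n := by rw [hw, sg_length]
      have hs : ∀ i l, sg (fun i => z (m + i)) i l = sg z (m + i) l := by
        intro i l
        rw [sg_inj]
        intro t _
        rw [add_assoc]
      refine PR_of_fac (fun i => z (m + i)) ?_ ?_ ?_
      · rw [hn, hw]
        rfl
      · intro i x hx
        rw [hs] at hx
        rw [List.mem_reverse]
        refine hF3 (sg z (m + i) 1).reverse ?_ x (by rw [List.mem_reverse]; exact hx)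
        show (sg z (m + i) 1).reverse.reverse ∈ FacR z
        rw [List.reverse_reverse]
        exact FacR_iff.2 ⟨_, _, rfl⟩
      · intro i
        rw [hs, ← D_reverse]
        refine hD _ ?_
        show (sg z (m + 0) i).reverse.reverse ∈ FacR z
        rw [List.reverse_reverse]
        exact FacR_iff.2 ⟨_, _, rfl⟩
    · left
      obtain ⟨m, n, hw⟩ := hF2
      have hn : w.length = n := by rw [hw]; simp
      have hs : ∀ i l, sg (fun i : ℕ => z (m + i)) i l ∈ FacZ z := by
        intro i l
        refine ⟨m + i, l, ?_⟩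
        unfold sg
        rw [List.map_inj_left]
        intro t _
        push_cast
        rw [add_assoc]
      refine PR_of_fac (fun i : ℕ => z (m + i)) ?_ ?_ ?_
      · rw [hn, hw]
        rfl
      · intro i
        exact hF3 _ (hs _ _)
      · intro i
        exact hD _ (hs _ _)
  · rintro (⟨z, h1, h2, h3⟩ | ⟨z, h1, h2, h3⟩)
    · refine iInf₂_le_of_le (FacR z) ⟨Or.inl ⟨z, rfl⟩, ?_, ?_⟩ ?_
      · refine ⟨0, w.length, ?_⟩
        simpa [pre] using h1.symm
      · rintro u ⟨m, n, rfl⟩ x hx
        simp only [List.mem_map] at hx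
        obtain ⟨t, -, rfl⟩ := hx
        exact h2 _
      · refine iSup₂_le fun u hu => ?_
        exact_mod_cast D_le_of_FacR h3 hu
    · refine iInf₂_le_of_le (FacL z) ⟨Or.inr (Or.inl ⟨z, rfl⟩), ?_, ?_⟩ ?_
      · refine ⟨0, w.reverse.length, ?_⟩
        simpa [pre] using h1.symm
      · intro u hu x hx
        obtain ⟨m, n, hu'⟩ := hu
        have hx' : x ∈ u.reverse := List.mem_reverse.2 hx
        rw [hu'] at hx'
        simp only [List.mem_map] at hx'
        obtain ⟨t, -, rfl⟩ := hx'
        exact List.mem_reverse.1 (h2 _)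
      · refine iSup₂_le fun u hu => ?_
        have : D u ≤ k := by
          rw [← D_reverse]
          exact D_le_of_FacR h3 hu
        exact_mod_cast this

/-! ### Computability -/

section Prim

variable {α β : Type} [Primcodable α] [Primcodable β]

theorem all_mem {R : α → β → Prop} (h : PrimrecRel R) {f : β → List α} (hf : Primrec f) :
    PrimrecPred fun b => ∀ x ∈ f b, R x b :=
  h.forall_mem_list.comp hf Primrec.id

theorem ex_mem {R : α → β → Prop} (h : PrimrecRel R) {f : β → List α} (hf : Primrec f) :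
    PrimrecPred fun b => ∃ x ∈ f b, R x b :=
  h.exists_mem_list.comp hf Primrec.id

theorem all_lt {R : ℕ → β → Prop} (h : PrimrecRel R) {f : β → ℕ} (hf : Primrec f) :
    PrimrecPred fun b => ∀ x < f b, R x b :=
  (all_mem h (Primrec.list_range.comp hf)).of_eq (by simp)

theorem ex_lt {R : ℕ → β → Prop} (h : PrimrecRel R) {f : β → ℕ} (hf : Primrec f) :
    PrimrecPred fun b => ∃ x < f b, R x b :=
  (ex_mem h (Primrec.list_range.comp hf)).of_eq (by simp)

variable {V : β → List ℕ} {f g h : β → ℕ}

theorem prim_gd (hV : Primrec V) (hf : Primrec f) : Primrec fun x => gd (V x) (f x) :=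
  (Primrec.list_getD 0).comp hV hf

theorem prim_eq {f g : β → ℕ} (hf : Primrec f) (hg : Primrec g) : PrimrecPred fun x => f x = g x :=
  Primrec.eq.comp hf hg

theorem prim_pal (hV : Primrec V) (hf : Primrec f) (hg : Primrec g) :
    PrimrecPred fun x => pal (gd (V x)) (f x) (g x) := by
  have h1 : PrimrecRel fun (t : ℕ) (x : β) => gd (V x) (f x + t) = gd (V x) (g x - 1 - t) :=
    prim_eq
      (prim_gd (hV.comp Primrec.snd) (Primrec.nat_add.comp (hf.comp Primrec.snd) Primrec.fst))
      (prim_gd (hV.comp Primrec.snd)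
        (Primrec.nat_sub.comp (Primrec.nat_sub.comp (hg.comp Primrec.snd) (Primrec.const 1))
          Primrec.fst))
  exact all_lt h1 (Primrec.nat_sub.comp hg hf)

theorem prim_occ {l : β → ℕ} (hV : Primrec V) (hf : Primrec f) (hg : Primrec g) (hl : Primrec l) :
    PrimrecPred fun x => occ (gd (V x)) (f x) (g x) (l x) := by
  have h1 : PrimrecRel fun (t : ℕ) (x : β) => gd (V x) (g x + t) = gd (V x) (f x + t) :=
    prim_eq
      (prim_gd (hV.comp Primrec.snd) (Primrec.nat_add.comp (hg.comp Primrec.snd) Primrec.fst))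
      (prim_gd (hV.comp Primrec.snd) (Primrec.nat_add.comp (hf.comp Primrec.snd) Primrec.fst))
  exact all_lt h1 hl

theorem prim_New (hV : Primrec V) (hf : Primrec f) : PrimrecPred fun x => New (gd (V x)) (f x) := by
  have h1 : PrimrecRel fun (b' : ℕ) (y : ℕ × β) =>
      ¬ occ (gd (V y.2)) y.1 b' (f y.2 - y.1) :=
    (prim_occ (hV.comp (Primrec.snd.comp Primrec.snd)) (Primrec.fst.comp Primrec.snd) Primrec.fst
      (Primrec.nat_sub.comp (hf.comp (Primrec.snd.comp Primrec.snd))
        (Primrec.fst.comp Primrec.snd))).not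
  have h2 : PrimrecRel fun (b : ℕ) (x : β) => pal (gd (V x)) b (f x) ∧
      ∀ b' < b, ¬ occ (gd (V x)) b b' (f x - b) :=
    (prim_pal (hV.comp Primrec.snd) Primrec.fst (hf.comp Primrec.snd)).and (all_lt h1 Primrec.fst)
  exact ex_lt h2 hf

theorem prim_Cert (hV : Primrec V) (hf : Primrec f) :
    PrimrecPred fun x => Cert (gd (V x)) (f x) := by
  have h1 : PrimrecRel fun (i' : ℕ) (y : ℕ × (ℕ × β)) =>
      ¬ occ (gd (V y.2.2)) y.2.1 i' (f y.2.2 - y.2.1) ∨ i' = y.1 :=
    (prim_occ (hV.comp (Primrec.snd.comp (Primrec.snd.comp Primrec.snd)))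
      (Primrec.fst.comp (Primrec.snd.comp Primrec.snd)) Primrec.fst
      (Primrec.nat_sub.comp (hf.comp (Primrec.snd.comp (Primrec.snd.comp Primrec.snd)))
        (Primrec.fst.comp (Primrec.snd.comp Primrec.snd)))).not.or
    (prim_eq Primrec.fst (Primrec.fst.comp Primrec.snd))
  have h2 : PrimrecRel fun (i : ℕ) (y : ℕ × β) => pal (gd (V y.2)) y.1 (f y.2) ∧
      pal (gd (V y.2)) i (f y.2) ∧
        ∀ i' < y.1, ¬ occ (gd (V y.2)) y.1 i' (f y.2 - y.1) ∨ i' = i :=
    (prim_pal (hV.comp (Primrec.snd.comp Primrec.snd)) (Primrec.fst.comp Primrec.snd)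
      (hf.comp (Primrec.snd.comp Primrec.snd))).and
    ((prim_pal (hV.comp (Primrec.snd.comp Primrec.snd)) Primrec.fst
      (hf.comp (Primrec.snd.comp Primrec.snd))).and
      (all_lt h1 (Primrec.fst.comp Primrec.snd)))
  have h3 : PrimrecRel fun (j : ℕ) (x : β) => ∃ i < j, pal (gd (V x)) j (f x) ∧
      pal (gd (V x)) i (f x) ∧ ∀ i' < j, ¬ occ (gd (V x)) j i' (f x - j) ∨ i' = i :=
    ex_lt h2 Primrec.fst
  refine (ex_lt h3 hf).of_eq fun x => ?_
  unfold Cert
  simp only [imp_iff_not_or]

theorem prim_D : Primrec D := by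
  classical
  have h1 : PrimrecRel fun (m : ℕ) (V : List ℕ) => ¬ New (gd V) (m + 1) :=
    (prim_New Primrec.snd (Primrec.succ.comp Primrec.fst)).not
  have h2 := Primrec.list_length.comp
    (h1.listFilter.comp (Primrec.list_range.comp Primrec.list_length) (Primrec.id (α := List ℕ)))
  refine h2.of_eq fun V => ?_
  have h3 := D_pre (gd V) V.length
  rw [pre_gd] at h3
  rw [h3]
  simp only [id]

theorem prim_prefix {V w : β → List ℕ} (hV : Primrec V) (hw : Primrec w) :
    PrimrecPred fun x => (V x).take (w x).length = w x :=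
  Primrec.eq.comp (Primrec.list_take.comp (Primrec.list_length.comp hw) hV) hw

theorem prim_letters {V w : β → List ℕ} (hV : Primrec V) (hw : Primrec w) :
    PrimrecPred fun x => ∀ a ∈ V x, a ∈ w x := by
  have h1 : PrimrecRel fun (c : ℕ) (y : ℕ × β) => c = y.1 :=
    prim_eq Primrec.fst (Primrec.fst.comp Primrec.snd)
  have h2 : PrimrecRel fun (a : ℕ) (x : β) => ∃ c ∈ w x, c = a :=
    ex_mem h1 (hw.comp Primrec.snd)
  refine (all_mem h2 hV).of_eq fun x => ?_
  simp

theorem prim_D_le {V : β → List ℕ} {k : β → ℕ} (hV : Primrec V) (hk : Primrec k) :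
    PrimrecPred fun x => D (V x) ≤ k x :=
  Primrec.nat_le.comp (prim_D.comp hV) hk

theorem prim_AR {V w : β → List ℕ} {k : β → ℕ} (hV : Primrec V) (hw : Primrec w)
    (hk : Primrec k) : PrimrecPred fun x => AR (w x) (k x) (V x) :=
  (prim_prefix hV hw).and ((prim_letters hV hw).and ((prim_D_le hV hk).and
    (prim_Cert hV (Primrec.list_length.comp hV))))

end Prim

/-- all continuations of `w` by `n` letters of `w` -/
def exts (w : List ℕ) (n : ℕ) : List (List ℕ) :=
  Nat.rec [w] (fun _ L => L.flatMap fun V => w.map fun a => V ++ [a]) n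

theorem mem_exts (w : List ℕ) (n : ℕ) (V : List ℕ) : V ∈ exts w n ↔ Cont w n V := by
  induction n generalizing V with
  | zero =>
    show V ∈ [w] ↔ _
    rw [List.mem_singleton]
    constructor
    · rintro rfl
      exact ⟨List.take_length, fun x hx => hx, rfl⟩
    · rintro ⟨h1, -, h3⟩
      rw [← h1]
      exact (List.take_of_length_le (by omega)).symm
  | succ n ih =>
    have e : exts w (n + 1) = (exts w n).flatMap fun V => w.map fun a => V ++ [a] := rfl
    rw [e]
    simp only [List.mem_flatMap, List.mem_map]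
    constructor
    · rintro ⟨V', hV', a, ha, rfl⟩
      obtain ⟨h1, h2, h3⟩ := (ih V').1 hV'
      refine ⟨?_, ?_, ?_⟩
      · rw [List.take_append_of_le_length (by omega), h1]
      · intro x hx
        rcases List.mem_append.1 hx with h | h
        · exact h2 x h
        · rw [List.mem_singleton.1 h]
          exact ha
      · rw [List.length_append, List.length_singleton, h3]
        omega
    · rintro ⟨h1, h2, h3⟩
      have hne : V ≠ [] := by
        rintro rfl
        simp at h3
      refine ⟨V.dropLast, (ih _).2 ⟨?_, ?_, ?_⟩, V.getLast hne, h2 _ (List.getLast_mem hne),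
        List.dropLast_append_getLast hne⟩
      · rw [List.dropLast_eq_take, List.take_take, min_eq_left (by omega), h1]
      · intro x hx
        exact h2 x (List.mem_of_mem_dropLast hx)
      · rw [List.length_dropLast]
        omega

theorem prim_exts : Primrec₂ exts := by
  have h : Primrec₂ fun (w : List ℕ) (p : ℕ × List (List ℕ)) =>
      p.2.flatMap fun V => w.map fun a => V ++ [a] := by
    refine Primrec.list_flatMap (Primrec.snd.comp Primrec.snd) ?_
    refine Primrec.list_map (Primrec.fst.comp Primrec.fst) ?_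
    exact Primrec.list_concat.comp (Primrec.snd.comp Primrec.fst) Primrec.snd
  have hf : Primrec fun w : List ℕ => [w] :=
    Primrec.list_cons.comp Primrec.id (Primrec.const [])
  exact Primrec.nat_rec hf h

/-- no continuation by `n` letters has defect at most `k` -/
def Bad (w : List ℕ) (k n : ℕ) : Prop := ∀ V ∈ exts w n, ¬ D V ≤ k

theorem prim_Bad {β : Type} [Primcodable β] {w : β → List ℕ} {k n : β → ℕ} (hw : Primrec w)
    (hk : Primrec k) (hn : Primrec n) : PrimrecPred fun x => Bad (w x) (k x) (n x) := by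
  have h1 : PrimrecRel fun (V : List ℕ) (x : β) => ¬ D V ≤ k x :=
    (prim_D_le Primrec.fst (hk.comp Primrec.snd)).not
  exact all_mem h1 (prim_exts.comp hw hn)

theorem not_PR {w : List ℕ} {k : ℕ} : ¬ PR w k ↔ ∃ n, Bad w k n := by
  constructor
  · intro h
    by_contra hcon
    push Not at hcon
    apply h
    apply PR_of_Cont
    intro n
    have := hcon n
    unfold Bad at this
    push Not at this
    obtain ⟨V, hV, hD⟩ := this
    exact ⟨V, (mem_exts w n V).1 hV, hD⟩
  · rintro ⟨n, hn⟩ h
    obtain ⟨V, hV, hD⟩ := Cont_of_PR h n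
    exact hn V ((mem_exts w n V).2 hV) hD

theorem re_exists {α β : Type} [Primcodable α] [Primcodable β] [Inhabited β] {R : α → β → Prop}
    (h : PrimrecPred fun p : α × β => R p.1 p.2) : REPred fun a => ∃ b, R a b := by
  classical
  have h1 : PrimrecPred fun p : α × ℕ => R p.1 ((Encodable.decode (α := β) p.2).getD default) :=
    h.comp (Primrec.pair Primrec.fst
      (Primrec.option_getD.comp (Primrec.decode.comp Primrec.snd) (Primrec.const default)))
  obtain ⟨_, h2⟩ := h1
  have h3 : Partrec fun a : α => Nat.rfind fun n =>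
      (Part.some (decide (R a ((Encodable.decode (α := β) n).getD default))) : Part Bool) := by
    refine Partrec.rfind ?_
    have h4 := h2.to_comp.partrec
    refine h4.of_eq fun p => ?_
    simp
  refine h3.dom_re.of_eq fun a => ?_
  refine Nat.rfind_dom'.trans ?_
  constructor
  · rintro ⟨n, hn, -⟩
    exact ⟨(Encodable.decode (α := β) n).getD default, by simpa using hn⟩
  · rintro ⟨b, hb⟩
    refine ⟨Encodable.encode b, ?_, fun {m} _ => trivial⟩
    simpa using hb

/-- the predicate to be decided -/
def P (w : List ℕ) (k : ℕ) : Prop := w = [] ∨ PR w k ∨ PR w.reverse k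

theorem P_iff (w : List ℕ) (k : ℕ) :
    P w k ↔ ∃ V, w = [] ∨ AR w k V ∨ AR w.reverse k V := by
  unfold P
  constructor
  · rintro (h | h | h)
    · exact ⟨[], Or.inl h⟩
    · obtain ⟨V, hV⟩ := AR_of_PR h
      exact ⟨V, Or.inr (Or.inl hV)⟩
    · obtain ⟨V, hV⟩ := AR_of_PR h
      exact ⟨V, Or.inr (Or.inr hV)⟩
  · rintro ⟨V, h | h | h⟩
    · exact Or.inl h
    · exact Or.inr (Or.inl (PR_of_AR h))
    · exact Or.inr (Or.inr (PR_of_AR h))

theorem not_P_iff (w : List ℕ) (k : ℕ) :
    ¬ P w k ↔ ∃ q : ℕ × ℕ, ¬ w = [] ∧ Bad w k q.1 ∧ Bad w.reverse k q.2 := by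
  unfold P
  push Not
  rw [not_PR, not_PR]
  constructor
  · rintro ⟨h, ⟨n, hn⟩, ⟨n', hn'⟩⟩
    exact ⟨(n, n'), h, hn, hn'⟩
  · rintro ⟨q, h, hn, hn'⟩
    exact ⟨h, ⟨_, hn⟩, ⟨_, hn'⟩⟩

theorem comp_P : ComputablePred fun p : List ℕ × ℕ => P p.1 p.2 := by
  rw [ComputablePred.computable_iff_re_compl_re']
  have hnil : ∀ {β : Type} [Primcodable β] {w : β → List ℕ}, Primrec w →
      PrimrecPred fun x => w x = [] := fun hw => Primrec.eq.comp hw (Primrec.const [])
  constructor
  · have h1 : PrimrecPred fun p : (List ℕ × ℕ) × List ℕ =>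
        p.1.1 = [] ∨ AR p.1.1 p.1.2 p.2 ∨ AR p.1.1.reverse p.1.2 p.2 :=
      (hnil (Primrec.fst.comp Primrec.fst)).or ((prim_AR Primrec.snd
        (Primrec.fst.comp Primrec.fst) (Primrec.snd.comp Primrec.fst)).or (prim_AR Primrec.snd
          (Primrec.list_reverse.comp (Primrec.fst.comp Primrec.fst))
          (Primrec.snd.comp Primrec.fst)))
    refine (re_exists (R := fun (p : List ℕ × ℕ) V =>
      p.1 = [] ∨ AR p.1 p.2 V ∨ AR p.1.reverse p.2 V) h1).of_eq fun p => ?_
    exact (P_iff p.1 p.2).symm
  · have h1 : PrimrecPred fun p : (List ℕ × ℕ) × (ℕ × ℕ) =>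
        ¬ p.1.1 = [] ∧ Bad p.1.1 p.1.2 p.2.1 ∧ Bad p.1.1.reverse p.1.2 p.2.2 :=
      (hnil (Primrec.fst.comp Primrec.fst)).not.and
        ((prim_Bad (Primrec.fst.comp Primrec.fst) (Primrec.snd.comp Primrec.fst)
          (Primrec.fst.comp Primrec.snd)).and
        (prim_Bad (Primrec.list_reverse.comp (Primrec.fst.comp Primrec.fst))
          (Primrec.snd.comp Primrec.fst) (Primrec.snd.comp Primrec.snd)))
    refine (re_exists (R := fun (p : List ℕ × ℕ) (q : ℕ × ℕ) =>
      ¬ p.1 = [] ∧ Bad p.1 p.2 q.1 ∧ Bad p.1.reverse p.2 q.2) h1).of_eq fun p => ?_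
    exact (not_P_iff p.1 p.2).symm

theorem exists_P (w : List ℕ) : ∃ k, P w k := by
  by_cases hw : w = []
  · exact ⟨0, Or.inl hw⟩
  · obtain ⟨k, hk⟩ := exists_PR hw
    exact ⟨k, Or.inr (Or.inl hk)⟩

/-- There is a computable function whose value at every nonempty finite word `w` is the infinite
defect of `w`. -/
theorem result : ∃ f : List ℕ → ℕ, Computable f ∧ ∀ w : List ℕ, w ≠ [] → Dinf w = f w := by
  classical
  refine ⟨fun w => Nat.find (exists_P w), Computable.find comp_P exists_P, fun w hw => ?_⟩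
  have h1 : ∀ k : ℕ, Dinf w ≤ k ↔ P w k := by
    intro k
    rw [Dinf_le]
    unfold P
    simp [hw]
  have h2 := (h1 _).2 (Nat.find_spec (exists_P w))
  refine le_antisymm h2 ?_
  by_contra hcon
  push Not at hcon
  obtain ⟨d, hd⟩ := ENat.ne_top_iff_exists.1 (ne_top_of_lt hcon)
  rw [← hd] at hcon
  have h3 : d < Nat.find (exists_P w) := by exact_mod_cast hcon
  exact Nat.find_min (exists_P w) h3 ((h1 d).1 hd.symm.le)

end Pool.Agent.Results.MP_a1720d_lc.DefectComputable
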